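import Pool.Agent.H31.FW.TargetsG
import Pool.Agent.H31.FW.TargetsL
import Pool.Agent.H81.THC.CSA

/-!
# The bound of Weyl for friable conductors: (CS) the complete sums
-/

set_option autoImplicit false

open NumberField Complex
open scoped nonZeroDivisors

namespace Pool.Agent.H89.FW

open Pool.Agent.H25.HK Pool.Agent.H23.LB Pool.Agent.H31.FW
open Pool.Agent.H28.RC (Rep ft)
open Pool.Agent.H29.TC (dvs cq LC Gn MC AC unit_add_nil)
open Pool.Agent.H81.THC (sum_fib card_map_mul ex_one)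

section
variable {K : Type} [Field K] [NumberField K]

lemma fi_mono {I J : Ideal (𝓞 K)} (h : I ≤ J) (M : FI K) {x : K} (hx : x ∈ (I : FI K) * M) :
    x ∈ (J : FI K) * M :=
  (mul_le_mul_left ((FractionalIdeal.coeIdeal_le_coeIdeal K).2 h) M) hx

lemma fi_le (I : Ideal (𝓞 K)) (M : FI K) {x : K} (hx : x ∈ (I : FI K) * M) : x ∈ M := by
  have := fi_mono (le_top : I ≤ ⊤) M hx
  rwa [FractionalIdeal.coeIdeal_top, one_mul] at this

/-- the arithmetic of the ideals -/
lemma key_ideal {g q e f : Ideal (𝓞 K)} (hf : f = g * q) (hg : g ≠ ⊥)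
    {M : FI K} {x₀ h : K} {b : 𝓞 K} (hx₀ : Gn f M x₀) (hke : q ≤ e)
    (hb : h - (b : K) * x₀ ∈ (f : FI K) * M) (hh : h ∈ ((g * e : Ideal (𝓞 K)) : FI K) * M)
    (hmin : ∀ e' : Ideal (𝓞 K), q ≤ e' → h ∈ ((g * e' : Ideal (𝓞 K)) : FI K) * M → e ≤ e') :
    b ∈ g * e ∧ g * e = Ideal.span {b} ⊔ f := by
  have hfge : f ≤ g * e := hf.le.trans (Ideal.mul_mono_right hke)
  have hbge : b ∈ g * e := by
    rw [← hx₀.iff b (g * e) hfge]
    have := Submodule.sub_mem _ hh (fi_mono hfge M hb)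
    have e1 : h - (h - (b : K) * x₀) = (b : K) * x₀ := by ring
    rw [e1] at this
    exact this
  refine ⟨hbge, ?_⟩
  have hle : Ideal.span {b} ⊔ g * q ≤ g := by
    refine sup_le ?_ Ideal.mul_le_left
    rw [Ideal.span_singleton_le_iff_mem]
    exact Ideal.mul_le_left hbge
  obtain ⟨e'', he''⟩ := Ideal.dvd_iff_le.2 hle
  have hg0 : g ≠ 0 := hg
  have hke'' : q ≤ e'' := by
    rw [← Ideal.dvd_iff_le, ← mul_dvd_mul_iff_left hg0, ← he'', Ideal.dvd_iff_le]
    exact le_sup_right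
  have hee'' : e ≤ e'' := by
    apply hmin e'' hke''
    have h1 : f ≤ g * e'' := hf.le.trans (Ideal.mul_mono_right hke'')
    have h2 : b ∈ g * e'' := by
      rw [← he'']
      exact Ideal.mem_sup_left (Ideal.mem_span_singleton_self b)
    have h3 := Submodule.add_mem _ (fi_mono h1 M hb) ((hx₀.iff b _ h1).2 h2)
    have e1 : h - (b : K) * x₀ + (b : K) * x₀ = h := by ring
    rw [e1] at h3
    exact h3
  have he''e : e'' ≤ e := by
    rw [← Ideal.dvd_iff_le, ← mul_dvd_mul_iff_left hg0, ← he'', Ideal.dvd_iff_le]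
    refine sup_le ?_ (Ideal.mul_mono_right hke)
    rw [Ideal.span_singleton_le_iff_mem]
    exact hbge
  rw [hf, he'', le_antisymm he''e hee'']

/-- the local conditions -/
lemma LQ_of {g q : Ideal (𝓞 K)} (hGQ : GQ ⊤ g q) (P : Ideal (𝓞 K)) (hP : P.IsPrime)
    (hfP : g * q ≤ P) : LQ g (g * q) P := by
  have hqP : q ≤ P := by
    rcases (Ideal.IsPrime.mul_le hP).1 hfP with h | h
    · exact hGQ.rad P hP h
    · exact h
  have hP0 : P ≠ ⊥ := by
    rintro rfl
    exact hGQ.q_ne (le_bot_iff.1 hqP)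
  have hPp : Prime P := Ideal.prime_of_isPrime hP0 hP
  rcases hGQ.loc P hP hqP with ⟨h1, h2⟩ | ⟨h1, h2⟩
  · left
    refine ⟨h1, fun h3 => h2 ?_⟩
    rw [← Ideal.dvd_iff_le] at h3 ⊢
    exact hPp.pow_dvd_of_dvd_mul_left 3 (fun h => h1 (Ideal.dvd_iff_le.1 h)) h3
  · right
    refine ⟨h2, ?_⟩
    have hex : ∃ m : ℕ, ¬ g ≤ P ^ m := by
      obtain ⟨m, hm⟩ := FiniteMultiplicity.of_prime_left hPp (b := g) hGQ.g_ne
      exact ⟨m + 1, fun h => hm (Ideal.dvd_iff_le.2 h)⟩
    classical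
    obtain ⟨m, hm, hmin⟩ : ∃ m : ℕ, ¬ g ≤ P ^ m ∧ ∀ k < m, g ≤ P ^ k :=
      ⟨Nat.find hex, Nat.find_spec hex, fun k hk => not_not.1 (Nat.find_min hex hk)⟩
    rcases m with _ | s
    · exact absurd (by rw [pow_zero, Ideal.one_eq_top]; exact le_top) hm
    · refine ⟨s, hm, ?_⟩
      rw [pow_add]
      exact Ideal.mul_mono (hmin s (Nat.lt_succ_self s)) h1

end

theorem pf_CS (hGL : Q_GL) (hCQ : Pool.Agent.H29.TC.T_CQ) (hDF : Pool.Agent.H29.TC.T_DF) :
    Q_CS := by
  classical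
  intro n K _ _ hn g q hGQ η hη M x₀ e h hM hx₀ hke hh hmin
  have hf0 : (g * q : Ideal (𝓞 K)) ≠ ⊥ := mul_ne_zero hGQ.g_ne hGQ.q_ne
  have hLQ := LQ_of hGQ
  generalize hf : (g * q : Ideal (𝓞 K)) = f at *
  have hf' : f = g * q := hf.symm
  obtain ⟨q1, q2, q3⟩ := hCQ K f η M x₀ hf0 hM hx₀
  have hhM : h ∈ M := fi_le _ M hh
  obtain ⟨b, -, hb⟩ := hx₀.gen h hhM
  obtain ⟨hbge, hge⟩ := key_ideal hf' hGQ.g_ne hx₀ hke hb hh hmin
  have hbg : b ∈ g := Ideal.mul_le_left hbge
  have hfk2 : f ≤ q := by rw [hf']; exact Ideal.mul_le_right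
  -- nilpotent elements
  have hnk : ∀ x ∈ q, IsNilpotent (Ideal.Quotient.mk f x) := by
    intro x hx
    have h1 : x ∈ f.radical := by
      rw [Ideal.radical_eq_sInf, Ideal.mem_sInf]
      intro P hP
      have h2 := hP.1
      rw [hf'] at h2
      rcases (Ideal.IsPrime.mul_le hP.2).1 h2 with h3 | h3
      · exact hGQ.rad P hP.2 h3 hx
      · exact h3 hx
    obtain ⟨m, hm⟩ := h1
    exact ⟨m, by rw [← map_pow]; exact Ideal.Quotient.eq_zero_iff_mem.2 hm⟩
  set β : 𝓞 K ⧸ f := Ideal.Quotient.mk f b with hβ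
  have hbk2 : ∀ c ∈ q, b * c ∈ f := by
    intro c hc
    rw [hf']
    exact Ideal.mul_mem_mul hbg hc
  -- periodicity in the ring
  have hper : ∀ a c : 𝓞 K, c ∈ q →
      η (Ideal.Quotient.mk f (a + c) + β) * (starRingEnd ℂ) (η (Ideal.Quotient.mk f (a + c))) =
        η (Ideal.Quotient.mk f a + β) * (starRingEnd ℂ) (η (Ideal.Quotient.mk f a)) := by
    intro a c hc
    have hnc : IsNilpotent (Ideal.Quotient.mk f c) := hnk c hc
    by_cases ha : IsUnit (Ideal.Quotient.mk f a)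
    · have hac : IsUnit (Ideal.Quotient.mk f (a + c)) := by
        rw [map_add]; exact unit_add_nil ha hnc
      have hcb : Ideal.Quotient.mk f c * β = 0 := by
        rw [hβ, ← map_mul, Ideal.Quotient.eq_zero_iff_mem, mul_comm]
        exact hbk2 c hc
      have h1 : (Ideal.Quotient.mk f (a + c) + β) * Ideal.Quotient.mk f a =
          Ideal.Quotient.mk f (a + c) * (Ideal.Quotient.mk f a + β) := by
        rw [map_add]
        linear_combination - hcb
      have h2 := congrArg η h1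
      rw [hη.mc.mul, hη.mc.mul] at h2
      have h3 := hη.mc.conj_mul ha
      have h4 := hη.mc.conj_mul hac
      have h5 : η (Ideal.Quotient.mk f a) * (starRingEnd ℂ) (η (Ideal.Quotient.mk f a)) = 1 := by
        linear_combination h3
      have h6 : η (Ideal.Quotient.mk f (a + c)) *
          (starRingEnd ℂ) (η (Ideal.Quotient.mk f (a + c))) = 1 := by
        linear_combination h4
      linear_combination
        (starRingEnd ℂ) (η (Ideal.Quotient.mk f (a + c))) *
          (starRingEnd ℂ) (η (Ideal.Quotient.mk f a)) * h2 -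
        η (Ideal.Quotient.mk f (a + c) + β) *
          (starRingEnd ℂ) (η (Ideal.Quotient.mk f (a + c))) * h5 +
        η (Ideal.Quotient.mk f a + β) * (starRingEnd ℂ) (η (Ideal.Quotient.mk f a)) * h6
    · have hac : ¬ IsUnit (Ideal.Quotient.mk f (a + c)) := by
        intro h5
        apply ha
        have h6 := unit_add_nil h5 hnc.neg
        rw [map_add] at h6
        simpa using h6
      rw [hη.mc.zero _ ha, hη.mc.zero _ hac]
      simp
  -- the values of cq
  have hcqh : ∀ (a : 𝓞 K) (x : K), x - (a : K) * x₀ ∈ (f : FI K) * M →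
      cq f η M x₀ (x + h) = η (Ideal.Quotient.mk f a + β) := by
    intro a x hx
    rw [hβ, ← map_add]
    apply q1
    have := Submodule.add_mem _ hx hb
    have e1 : x - (a : K) * x₀ + (h - (b : K) * x₀) = x + h - ((a + b : 𝓞 K) : K) * x₀ := by
      push_cast; ring
    rw [e1] at this
    exact this
  have hpart1 : ∀ x ∈ M, ∀ t ∈ (q : FI K) * M,
      cq f η M x₀ (x + t + h) * (starRingEnd ℂ) (cq f η M x₀ (x + t)) =
        cq f η M x₀ (x + h) * (starRingEnd ℂ) (cq f η M x₀ x) := by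
    intro x hx t ht
    obtain ⟨a, -, ha⟩ := hx₀.gen x hx
    obtain ⟨c, -, hc⟩ := hx₀.gen t (fi_le _ M ht)
    have hck : c ∈ q := by
      rw [← hx₀.iff c _ hfk2]
      have := Submodule.sub_mem _ ht (fi_mono hfk2 M hc)
      have e1 : t - (t - (c : K) * x₀) = (c : K) * x₀ := by ring
      rw [e1] at this
      exact this
    have hac : x + t - ((a + c : 𝓞 K) : K) * x₀ ∈ (f : FI K) * M := by
      have := Submodule.add_mem _ ha hc
      have e1 : x - (a : K) * x₀ + (t - (c : K) * x₀) = x + t - ((a + c : 𝓞 K) : K) * x₀ := by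
        push_cast; ring
      rw [e1] at this
      exact this
    rw [hcqh _ _ hac, q1 _ _ hac, hcqh _ _ ha, q1 _ _ ha]
    exact hper a c hck
  refine ⟨hpart1, ?_⟩
  intro X hX y hy
  have hk2M : (q : FI K) * M ≠ 0 :=
    mul_ne_zero (FractionalIdeal.coeIdeal_ne_zero.2 hGQ.q_ne) hM
  have : Finite (𝓞 K ⧸ f) := Ideal.finiteQuotientOfFreeOfNeBot f hf0
  have : Fintype (𝓞 K ⧸ f) := Fintype.ofFinite _
  -- the additive character
  let E : 𝓞 K → ℂ := fun α =>
    cexp (2 * Real.pi * I * ((Algebra.trace ℚ K ((α : K) * x₀ * y) : ℚ) : ℂ))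
  have hEadd : ∀ α γ, E (α + γ) = E α * E γ := by
    intro α γ
    simp only [E]
    rw [← Complex.exp_add]
    congr 1
    have : ((α + γ : 𝓞 K) : K) * x₀ * y = (α : K) * x₀ * y + (γ : K) * x₀ * y := by
      push_cast; ring
    rw [this, map_add]
    push_cast
    ring
  have hE1 : ∀ α ∈ q, E α = 1 := by
    intro α hα
    exact ex_one hk2M hy ((hx₀.iff α _ hfk2).2 hα)
  have hEn : ∀ α, ‖E α‖ = 1 := by
    intro α
    simp only [E]
    rw [Complex.norm_exp]
    simp
  let s : 𝓞 K ⧸ f → 𝓞 K := fun a => (Ideal.Quotient.mk_surjective a).choose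
  have hs : ∀ a, Ideal.Quotient.mk f (s a) = a := fun a =>
    (Ideal.Quotient.mk_surjective a).choose_spec
  let θ : 𝓞 K ⧸ f → ℂ := fun a => E (s a)
  have hEf : ∀ α γ : 𝓞 K, α - γ ∈ q → E α = E γ := by
    intro α γ h1
    have : α = γ + (α - γ) := by ring
    rw [this, hEadd, hE1 _ h1, mul_one]
  have hθ : ∀ α, θ (Ideal.Quotient.mk f α) = E α := by
    intro α
    apply hEf
    apply hfk2
    rw [← Ideal.Quotient.mk_eq_mk_iff_sub_mem, hs]
  have hAC : AC θ := by
    refine ⟨fun a c => ?_, fun a => hEn _⟩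
    have h1 : θ (a + c) = E (s a + s c) := by
      rw [← hθ, map_add, hs, hs]
    rw [h1, hEadd]
  set G : 𝓞 K ⧸ f → ℂ := fun a => η (a + β) * (starRingEnd ℂ) (η a) * θ a with hG
  -- coordinates
  have hco : ∀ r : K, ∃ α : 𝓞 K, r ∈ X → r - (α : K) * x₀ ∈ (f : FI K) * M := by
    intro r
    by_cases hr : r ∈ X
    · obtain ⟨α, -, hα⟩ := hx₀.gen r (hX.1 r hr)
      exact ⟨α, fun _ => hα⟩
    · exact ⟨0, fun h => absurd h hr⟩
  choose α hα using hco
  have hft : ft K X (fun x => cq f η M x₀ (x + h) * (starRingEnd ℂ) (cq f η M x₀ x)) y =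
      ∑ r ∈ X, G (Ideal.Quotient.mk f (α r)) := by
    unfold ft
    refine Finset.sum_congr rfl fun r hr => ?_
    beta_reduce
    rw [hcqh _ _ (hα r hr), q1 _ _ (hα r hr), hG]
    beta_reduce
    rw [hθ]
    congr 1
    have h1 : cexp (2 * Real.pi * I *
        ((Algebra.trace ℚ K ((r - (α r : K) * x₀) * y) : ℚ) : ℂ)) = 1 :=
      ex_one hk2M hy (fi_mono hfk2 M (hα r hr))
    simp only [E]
    have h2 : r * y = (α r : K) * x₀ * y + (r - (α r : K) * x₀) * y := by ring
    rw [h2, map_add]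
    push_cast
    rw [mul_add, Complex.exp_add, h1, mul_one]
  have hfib := sum_fib (q.map (Ideal.Quotient.mk f)) X (fun r => Ideal.Quotient.mk f (α r))
    (by
      intro a
      obtain ⟨a', rfl⟩ := Ideal.Quotient.mk_surjective a
      have hmemM : (a' : K) * x₀ ∈ M := by
        have := M.val.smul_mem a' hx₀.mem
        rwa [Algebra.smul_def] at this
      have hiff : ∀ r ∈ X, (Ideal.Quotient.mk f a' - Ideal.Quotient.mk f (α r) ∈
          q.map (Ideal.Quotient.mk f) ↔
          (a' : K) * x₀ - r ∈ (q : FI K) * M) := by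
        intro r hr
        rw [← map_sub, Ideal.mem_quotient_iff_mem hfk2, ← hx₀.iff _ _ hfk2]
        have hr' := fi_mono hfk2 M (hα r hr)
        constructor
        · intro h1
          have := Submodule.sub_mem _ h1 hr'
          have e1 : ((a' - α r : 𝓞 K) : K) * x₀ - (r - (α r : K) * x₀) = (a' : K) * x₀ - r := by
            push_cast; ring
          rw [e1] at this
          exact this
        · intro h1
          have := Submodule.add_mem _ h1 hr'
          have e1 : (a' : K) * x₀ - r + (r - (α r : K) * x₀) = ((a' - α r : 𝓞 K) : K) * x₀ := by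
            push_cast; ring
          rw [e1] at this
          exact this
      obtain ⟨r, ⟨hr, h1⟩, h2⟩ := hX.2 _ hmemM
      refine ⟨r, hr, (hiff r hr).2 h1, fun r' hr' h3 => h2 r' ⟨hr', (hiff r' hr').1 h3⟩⟩) G
    (by
      intro a c hc
      obtain ⟨a', rfl⟩ := Ideal.Quotient.mk_surjective a
      obtain ⟨c', hc', rfl⟩ := (Ideal.mem_map_iff_of_surjective _ Ideal.Quotient.mk_surjective).1 hc
      rw [hG]
      simp only
      rw [← map_add, hper a' c' hc', hθ, hθ, hEadd, hE1 _ hc', mul_one])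
  -- norms
  have hcard : ∀ I : Ideal (𝓞 K), Nat.card (𝓞 K ⧸ I) = Ideal.absNorm I := by
    intro I
    rw [Ideal.absNorm_apply, Submodule.cardQuot_apply]
  have hg0 : Ideal.absNorm g ≠ 0 := by
    rw [Ne, Ideal.absNorm_eq_zero_iff]; exact hGQ.g_ne
  have hk0 : Ideal.absNorm q ≠ 0 := by
    rw [Ne, Ideal.absNorm_eq_zero_iff]; exact hGQ.q_ne
  have hc1 : Nat.card (q.map (Ideal.Quotient.mk f)) = Ideal.absNorm g := by
    have h1 := card_map_mul f q hfk2
    have h3 : Ideal.absNorm f = Ideal.absNorm g * Ideal.absNorm q := by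
      rw [hf']; exact map_mul _ _ _
    rw [hcard, hcard, h3] at h1
    exact Nat.eq_of_mul_eq_mul_right (Nat.pos_of_ne_zero hk0) h1
  have hLS := hGL n K hn g f hGQ.g_ne hf0 hLQ η θ hη hAC b hbg
  have hsum : ∑ a, G a = cs η θ β := rfl
  have hgf : g ⊔ f = g := sup_eq_left.2 (by rw [hf']; exact Ideal.mul_le_left)
  rw [hgf, ← hge, ← hβ, ← hsum, hfib, ← hft, norm_mul, Complex.norm_natCast, hc1] at hLS
  have hNf : Nf K f = Nf K g * Nf K q := by
    unfold Nf; rw [hf', map_mul]; push_cast; ring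
  have hNge : Nf K (g * e) = Nf K g * Nf K e := by
    unfold Nf; rw [map_mul]; push_cast; ring
  have hgpos : (0 : ℝ) < Nf K g := by
    unfold Nf; exact_mod_cast Nat.pos_of_ne_zero hg0
  have hqn : (0 : ℝ) ≤ Nf K q := by unfold Nf; positivity
  have hen : (0 : ℝ) ≤ Nf K e := by unfold Nf; positivity
  have hDn : (0 : ℝ) ≤ DQ n f := by unfold DQ; positivity
  rw [hNf, hNge] at hLS
  change (Nf K g * _) ^ 2 * _ ≤ _ at hLS
  have h7 : Nf K g ^ 3 * ‖ft K X (fun x => cq f η M x₀ (x + h) *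
      (starRingEnd ℂ) (cq f η M x₀ x)) y‖ ^ 2 ≤
      Nf K g ^ 3 * (DQ n f * (Real.sqrt (Nf K q) * Nf K e)) ^ 2 := by
    rw [mul_pow, mul_pow, Real.sq_sqrt hqn]
    refine le_trans (le_of_eq ?_) (hLS.trans (le_of_eq ?_)) <;> ring
  have h8 := le_of_mul_le_mul_left h7 (pow_pos hgpos 3)
  exact (sq_le_sq₀ (norm_nonneg _) (by positivity)).1 h8

end Pool.Agent.H89.FW
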